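import Pool.Agent.COSB.StmtsT

set_option autoImplicit false

/-!
Row TGP of squad COSB (MP_0fc649_lc): the row TIG of squad COS (helper49) for any finite
commutative ring.
-/

namespace Pool.Agent.COSB.H8

open Pool.Agent.COS Pool.Agent.COSB

section act

variable {R : Type} [CommRing R] {n : ℕ}

abbrev Ts (R : Type) (n : ℕ) : Type := Fin n → Fin n → Fin n → R

def a1 (A : Matrix (Fin n) (Fin n) R) (T : Ts R n) : Ts R n :=
  fun i j k => ∑ a, A i a * T a j k

def a2 (A : Matrix (Fin n) (Fin n) R) (T : Ts R n) : Ts R n :=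
  fun i j k => ∑ a, A j a * T i a k

def a3 (A : Matrix (Fin n) (Fin n) R) (T : Ts R n) : Ts R n :=
  fun i j k => ∑ a, A k a * T i j a

theorem a1_mul (A B : Matrix (Fin n) (Fin n) R) (T : Ts R n) :
    a1 (A * B) T = a1 A (a1 B T) := by
  funext i j k
  simp only [a1, Matrix.mul_apply, Finset.sum_mul, Finset.mul_sum]
  rw [Finset.sum_comm]
  exact Finset.sum_congr rfl fun a _ => Finset.sum_congr rfl fun b _ => by rw [mul_assoc]

theorem a2_mul (A B : Matrix (Fin n) (Fin n) R) (T : Ts R n) :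
    a2 (A * B) T = a2 A (a2 B T) := by
  funext i j k
  simp only [a2, Matrix.mul_apply, Finset.sum_mul, Finset.mul_sum]
  rw [Finset.sum_comm]
  exact Finset.sum_congr rfl fun a _ => Finset.sum_congr rfl fun b _ => by rw [mul_assoc]

theorem a3_mul (A B : Matrix (Fin n) (Fin n) R) (T : Ts R n) :
    a3 (A * B) T = a3 A (a3 B T) := by
  funext i j k
  simp only [a3, Matrix.mul_apply, Finset.sum_mul, Finset.mul_sum]
  rw [Finset.sum_comm]
  exact Finset.sum_congr rfl fun a _ => Finset.sum_congr rfl fun b _ => by rw [mul_assoc]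

theorem a12 (A B : Matrix (Fin n) (Fin n) R) (T : Ts R n) :
    a1 A (a2 B T) = a2 B (a1 A T) := by
  funext i j k
  simp only [a1, a2, Finset.mul_sum]
  rw [Finset.sum_comm]
  exact Finset.sum_congr rfl fun a _ => Finset.sum_congr rfl fun b _ => by ring

theorem a13 (A B : Matrix (Fin n) (Fin n) R) (T : Ts R n) :
    a1 A (a3 B T) = a3 B (a1 A T) := by
  funext i j k
  simp only [a1, a3, Finset.mul_sum]
  rw [Finset.sum_comm]
  exact Finset.sum_congr rfl fun a _ => Finset.sum_congr rfl fun b _ => by ring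

theorem a23 (A B : Matrix (Fin n) (Fin n) R) (T : Ts R n) :
    a2 A (a3 B T) = a3 B (a2 A T) := by
  funext i j k
  simp only [a2, a3, Finset.mul_sum]
  rw [Finset.sum_comm]
  exact Finset.sum_congr rfl fun a _ => Finset.sum_congr rfl fun b _ => by ring

theorem a_one (T : Ts R n) : a1 1 T = T ∧ a2 1 T = T ∧ a3 1 T = T := by
  refine ⟨?_, ?_, ?_⟩ <;> funext i j k <;> simp [a1, a2, a3, Matrix.one_apply]

/-- the action of a triple -/
def act (F : Fin 3 → Matrix (Fin n) (Fin n) R) (T : Ts R n) : Ts R n :=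
  a1 (F 0) (a2 (F 1) (a3 (F 2) T))

theorem act_eq (F : Fin 3 → Matrix (Fin n) (Fin n) R) (T : Ts R n) (i j k : Fin n) :
    ∑ a, ∑ b, ∑ c, F 0 i a * F 1 j b * F 2 k c * T a b c = act F T i j k := by
  simp only [act, a1, a2, a3, Finset.mul_sum]
  exact Finset.sum_congr rfl fun a _ => Finset.sum_congr rfl fun b _ =>
    Finset.sum_congr rfl fun c _ => by ring

theorem act_mul (F G : Fin 3 → Matrix (Fin n) (Fin n) R) (T : Ts R n) :
    act (fun s => F s * G s) T = act F (act G T) := by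
  simp only [act, a1_mul, a2_mul, a3_mul]
  rw [a23, a12, ← a13, a12, ← a23]

theorem act_one (T : Ts R n) : act (fun _ => 1) T = T := by
  simp only [act, (a_one _).1, (a_one _).2.1, (a_one _).2.2]

end act

section blocks

variable {R : Type} [CommRing R] {n N : ℕ}

def eqv (h : 3 * n ≤ N) : (Fin 3 × Fin n) ⊕ Fin (N - 3 * n) ≃ Fin N :=
  ((Equiv.sumCongr finProdFinEquiv (Equiv.refl _)).trans finSumFinEquiv).trans
    (finCongr (Nat.add_sub_cancel' h))

theorem val_inl (h : 3 * n ≤ N) (s : Fin 3) (i : Fin n) :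
    ((eqv h (Sum.inl (s, i)) : Fin N) : ℕ) = i + n * s := by
  simp [eqv]

theorem val_inr (h : 3 * n ≤ N) (t : Fin (N - 3 * n)) :
    ((eqv h (Sum.inr t) : Fin N) : ℕ) = 3 * n + t := by
  simp [eqv]

theorem blk_inl (h : 3 * n ≤ N) (s : Fin 3) (i : Fin n) :
    blk n (eqv h (Sum.inl (s, i)) : Fin N) = s := by
  rw [val_inl]
  have hi := i.2
  unfold blk
  fin_cases s
  · simp [hi]
  · show (if (i : ℕ) + n * 1 < n then 0 else if (i : ℕ) + n * 1 < 2 * n then 1 else
      if (i : ℕ) + n * 1 < 3 * n then 2 else 3) = 1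
    rw [if_neg (by omega), if_pos (by omega)]
  · show (if (i : ℕ) + n * 2 < n then 0 else if (i : ℕ) + n * 2 < 2 * n then 1 else
      if (i : ℕ) + n * 2 < 3 * n then 2 else 3) = 2
    rw [if_neg (by omega), if_neg (by omega), if_pos (by omega)]

theorem blk_inr (h : 3 * n ≤ N) (t : Fin (N - 3 * n)) :
    blk n (eqv h (Sum.inr t) : Fin N) = 3 := by
  rw [val_inr]
  unfold blk
  rw [if_neg (by omega), if_neg (by omega), if_neg (by omega)]

/-- the embedding of the block -/
def eb (h : 3 * n ≤ N) (s : Fin 3) (i : Fin n) : Fin N := eqv h (Sum.inl (s, i))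

theorem eb_inj (h : 3 * n ≤ N) (s : Fin 3) : Function.Injective (eb h s) := by
  intro i j hij
  have h1 := (eqv h).injective hij
  exact (Prod.ext_iff.mp (Sum.inl.inj h1)).2

theorem eb_surj (h : 3 * n ≤ N) (s : Fin 3) (l : Fin N) (hl : blk n l = s) :
    l ∈ Set.range (eb h s) := by
  obtain ⟨x, rfl⟩ := (eqv h).surjective l
  rcases x with ⟨s', k⟩ | t
  · rw [blk_inl] at hl
    have h1 : s' = s := Fin.ext hl
    subst h1
    exact ⟨k, rfl⟩
  · rw [blk_inr] at hl
    have := s.2
    omega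

/-- block diagonal -/
def BD (n : ℕ) (M : Matrix (Fin N) (Fin N) R) : Prop :=
  ∀ i j : Fin N, blk n i ≠ blk n j → M i j = 0

theorem bd_one : BD n (1 : Matrix (Fin N) (Fin N) R) := by
  intro i j hij
  exact Matrix.one_apply_ne fun h => hij (by rw [h])

theorem bd_mul {M M' : Matrix (Fin N) (Fin N) R} (hM : BD n M) (hM' : BD n M') :
    BD n (M * M') := by
  intro i j hij
  rw [Matrix.mul_apply]
  refine Finset.sum_eq_zero fun l _ => ?_
  by_cases hl : blk n i = blk n l
  · rw [hM' l j (fun h => hij (hl.trans h)), mul_zero]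
  · rw [hM i l hl, zero_mul]

theorem bd_pow {M : Matrix.GeneralLinearGroup (Fin N) R} (hM : BD n M.1) : ∀ k : ℕ, BD n (M ^ k : Matrix.GeneralLinearGroup (Fin N) R).1 := by
  intro k
  induction k with
  | zero => rw [pow_zero]; exact bd_one
  | succ k ih => rw [pow_succ]; exact bd_mul ih hM

theorem bd_inv [Finite R] {M : Matrix.GeneralLinearGroup (Fin N) R} (hM : BD n M.1) : BD n (M⁻¹ : Matrix.GeneralLinearGroup (Fin N) R).1 := by
  have h1 : M⁻¹ = M ^ (orderOf M - 1) := by
    have h2 : M ^ (orderOf M - 1) * M = 1 := by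
      rw [← pow_succ, Nat.sub_add_cancel (orderOf_pos M), pow_orderOf_eq_one]
    exact inv_eq_of_mul_eq_one_left h2
  rw [h1]
  exact bd_pow hM _

/-- the diagonal blocks -/
def Db (h : 3 * n ≤ N) (M : Matrix (Fin N) (Fin N) R) (s : Fin 3) :
    Matrix (Fin n) (Fin n) R := fun i a => M (eb h s i) (eb h s a)

theorem db_mul (h : 3 * n ≤ N) {M : Matrix (Fin N) (Fin N) R} (hM : BD n M)
    (M' : Matrix (Fin N) (Fin N) R) (s : Fin 3) :
    Db h (M * M') s = Db h M s * Db h M' s := by
  ext i a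
  show (M * M') (eb h s i) (eb h s a) = (Db h M s * Db h M' s) i a
  rw [Matrix.mul_apply, Matrix.mul_apply]
  symm
  refine Fintype.sum_of_injective (eb h s) (eb_inj h s) _ _ ?_ fun k => rfl
  intro l hl
  have h1 : blk n (eb h s i) ≠ blk n l := by
    intro h2
    rw [eb, blk_inl] at h2
    exact hl (eb_surj h s l h2.symm)
  rw [hM _ l h1, zero_mul]

theorem db_one (h : 3 * n ≤ N) (s : Fin 3) :
    Db h (1 : Matrix (Fin N) (Fin N) R) s = 1 := by
  ext i a
  show (1 : Matrix (Fin N) (Fin N) R) (eb h s i) (eb h s a) = _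
  rw [Matrix.one_apply, Matrix.one_apply]
  by_cases hia : i = a
  · rw [if_pos hia, if_pos (by rw [hia])]
  · rw [if_neg hia, if_neg fun h' => hia (eb_inj h s h')]

theorem en_val (M : Matrix (Fin N) (Fin N) R) (p q : Fin N) (x y : ℕ) (hx : x = p)
    (hy : y = q) : enR M x y = M p q := by
  subst hx hy
  unfold enR
  rw [dif_pos ⟨p.2, q.2⟩]

theorem blkSol_iff (h : 3 * n ≤ N) (T T' : Ts R n) (M : Matrix (Fin N) (Fin N) R) :
    BlkSolR n N T T' M ↔ BD n M ∧ act (Db h M) T = T' := by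
  have h0 : ∀ i a : Fin n, enR M i a = Db h M 0 i a := fun i a =>
    en_val M _ _ _ _ (by rw [eb, val_inl]; simp) (by rw [eb, val_inl]; simp)
  have h1 : ∀ i a : Fin n, enR M (n + i) (n + a) = Db h M 1 i a := fun i a =>
    en_val M _ _ _ _ (by rw [eb, val_inl, Fin.val_one, mul_one, add_comm])
      (by rw [eb, val_inl, Fin.val_one, mul_one, add_comm])
  have h2 : ∀ i a : Fin n, enR M (2 * n + i) (2 * n + a) = Db h M 2 i a := fun i a =>
    en_val M _ _ _ _ (by rw [eb, val_inl, Fin.val_two, mul_comm n 2, add_comm])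
      (by rw [eb, val_inl, Fin.val_two, mul_comm n 2, add_comm])
  unfold BlkSolR
  simp only [h0, h1, h2, act_eq]
  constructor
  · rintro ⟨e1, e2⟩
    exact ⟨e1, by funext i j k; exact e2 i j k⟩
  · rintro ⟨e1, e2⟩
    exact ⟨e1, fun i j k => by rw [e2]⟩

/-- assembling a block diagonal matrix -/
def asm (h : 3 * n ≤ N) (F : Fin 3 → Matrix (Fin n) (Fin n) R) :
    Matrix (Fin N) (Fin N) R := fun x y =>
  match (eqv h).symm x, (eqv h).symm y with
  | Sum.inl (s, i), Sum.inl (s', j) => if s = s' then F s i j else 0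
  | Sum.inr t, Sum.inr t' => if t = t' then 1 else 0
  | _, _ => 0

theorem asm_mul (h : 3 * n ≤ N) (F G : Fin 3 → Matrix (Fin n) (Fin n) R) :
    asm h F * asm h G = asm h fun s => F s * G s := by
  ext x y
  obtain ⟨x, rfl⟩ := (eqv h).surjective x
  obtain ⟨y, rfl⟩ := (eqv h).surjective y
  rw [Matrix.mul_apply, ← Equiv.sum_comp (eqv h), Fintype.sum_sum_type, Fintype.sum_prod_type]
  rcases x with ⟨s, i⟩ | t <;> rcases y with ⟨s', j⟩ | t'
  · simp only [asm, Equiv.symm_apply_apply, mul_zero, Finset.sum_const_zero, add_zero]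
    rw [Finset.sum_eq_single s]
    · simp only [if_true]
      by_cases hs : s = s'
      · subst hs
        simp only [if_true, Matrix.mul_apply]
      · simp only [if_neg hs, mul_zero, Finset.sum_const_zero]
    · intro s'' _ hs''
      refine Finset.sum_eq_zero fun k _ => ?_
      rw [if_neg (Ne.symm hs''), zero_mul]
    · intro h'; exact absurd (Finset.mem_univ s) h'
  · simp [asm]
  · simp [asm]
  · simp only [asm, Equiv.symm_apply_apply, mul_zero, Finset.sum_const_zero, zero_add]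
    rw [Finset.sum_eq_single t]
    · simp
    · intro t'' _ ht''
      rw [if_neg (Ne.symm ht''), zero_mul]
    · intro h'; exact absurd (Finset.mem_univ t) h'

theorem asm_one (h : 3 * n ≤ N) : asm h (fun _ => 1) = (1 : Matrix (Fin N) (Fin N) R) := by
  ext x y
  obtain ⟨x, rfl⟩ := (eqv h).surjective x
  obtain ⟨y, rfl⟩ := (eqv h).surjective y
  rw [Matrix.one_apply]
  simp only [(eqv h).apply_eq_iff_eq]
  rcases x with ⟨s, i⟩ | t <;> rcases y with ⟨s', j⟩ | t'
  · simp only [asm, Equiv.symm_apply_apply, Matrix.one_apply, Sum.inl.injEq, Prod.mk.injEq]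
    by_cases hs : s = s'
    · by_cases hi : i = j
      · simp [hs, hi]
      · simp [hi]
    · simp [hs]
  · simp [asm]
  · simp [asm]
  · simp only [asm, Equiv.symm_apply_apply, Sum.inr.injEq]

theorem asm_bd (h : 3 * n ≤ N) (F : Fin 3 → Matrix (Fin n) (Fin n) R) :
    BD n (asm h F) := by
  intro x y hxy
  obtain ⟨x, rfl⟩ := (eqv h).surjective x
  obtain ⟨y, rfl⟩ := (eqv h).surjective y
  rcases x with ⟨s, i⟩ | t <;> rcases y with ⟨s', j⟩ | t'
  · rw [blk_inl, blk_inl] at hxy
    simp only [asm, Equiv.symm_apply_apply]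
    rw [if_neg fun h' => hxy (by rw [h'])]
  · simp [asm]
  · simp [asm]
  · rw [blk_inr, blk_inr] at hxy
    exact absurd rfl hxy

theorem asm_db (h : 3 * n ≤ N) (F : Fin 3 → Matrix (Fin n) (Fin n) R) (s : Fin 3) :
    Db h (asm h F) s = F s := by
  ext i a
  show asm h F (eb h s i) (eb h s a) = F s i a
  simp only [asm, eb, Equiv.symm_apply_apply, if_true]

end blocks

theorem tgp : TgpStmt := by
  intro R _ _ n N T T' h
  constructor
  · intro M₁ h₁ M₂ h₂ M₃ h₃
    have e1 := (blkSol_iff h T T' M₁.1).mp h₁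
    have e2 := (blkSol_iff h T T' M₂.1).mp h₂
    have e3 := (blkSol_iff h T T' M₃.1).mp h₃
    refine (blkSol_iff h T T' (M₁ * M₂⁻¹ * M₃ : Matrix.GeneralLinearGroup (Fin N) R).1).mpr ⟨?_, ?_⟩
    · exact bd_mul (bd_mul e1.1 (bd_inv e2.1)) e3.1
    · have h4 : Db h (M₁ * M₂⁻¹ * M₃ : Matrix.GeneralLinearGroup (Fin N) R).1 = fun s =>
          (fun s => Db h M₁.1 s * Db h (M₂⁻¹ : Matrix.GeneralLinearGroup (Fin N) R).1 s) s * Db h M₃.1 s := by
        funext s
        show Db h (M₁.1 * (M₂⁻¹ : Matrix.GeneralLinearGroup (Fin N) R).1 * M₃.1) s = _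
        rw [db_mul h (bd_mul e1.1 (bd_inv e2.1)), db_mul h e1.1]
      have h5 : act (Db h (M₂⁻¹ : Matrix.GeneralLinearGroup (Fin N) R).1) T' = T := by
        rw [← e2.2, ← act_mul]
        have h6 : (fun s => Db h (M₂⁻¹ : Matrix.GeneralLinearGroup (Fin N) R).1 s * Db h M₂.1 s) =
            fun _ => (1 : Matrix (Fin n) (Fin n) R) := by
          funext s
          rw [← db_mul h (bd_inv e2.1)]
          have h7 : (M₂⁻¹ : Matrix.GeneralLinearGroup (Fin N) R).1 * M₂.1 = 1 := M₂.inv_mul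
          rw [h7, db_one]
        rw [h6, act_one]
      rw [h4, act_mul, e3.2, act_mul, h5, e1.2]
  · constructor
    · rintro ⟨M, hM⟩
      obtain ⟨e1, e2⟩ := (blkSol_iff h T T' M.1).mp hM
      have hu : ∀ s, ∃ A : Matrix.GeneralLinearGroup (Fin n) R, A.1 = Db h M.1 s := by
        intro s
        refine ⟨⟨Db h M.1 s, Db h (M⁻¹ : Matrix.GeneralLinearGroup (Fin N) R).1 s, ?_, ?_⟩, rfl⟩
        · rw [← db_mul h e1]
          have h7 : M.1 * (M⁻¹ : Matrix.GeneralLinearGroup (Fin N) R).1 = 1 := M.mul_inv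
          rw [h7, db_one]
        · rw [← db_mul h (bd_inv e1)]
          have h7 : (M⁻¹ : Matrix.GeneralLinearGroup (Fin N) R).1 * M.1 = 1 := M.inv_mul
          rw [h7, db_one]
      obtain ⟨A, hA⟩ := hu 0
      obtain ⟨B, hB⟩ := hu 1
      obtain ⟨C, hC⟩ := hu 2
      refine ⟨A, B, C, fun i j k => ?_⟩
      rw [hA, hB, hC, act_eq (Db h M.1), e2]
    · rintro ⟨A, B, C, hABC⟩
      obtain ⟨F, hF⟩ : ∃ F : Fin 3 → Matrix.GeneralLinearGroup (Fin n) R, F = ![A, B, C] := ⟨_, rfl⟩
      have hinv : ∀ s, (F s).1 * (F s)⁻¹.1 = 1 := fun s => (F s).mul_inv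
      have hinv' : ∀ s, (F s)⁻¹.1 * (F s).1 = 1 := fun s => (F s).inv_mul
      refine ⟨⟨asm h fun s => (F s).1, asm h fun s => (F s)⁻¹.1, ?_, ?_⟩, ?_⟩
      · rw [asm_mul]
        simp only [hinv]
        exact asm_one h
      · rw [asm_mul]
        simp only [hinv']
        exact asm_one h
      · refine (blkSol_iff h T T' _).mpr ⟨asm_bd h _, ?_⟩
        have h4 : Db h (asm h fun s => (F s).1) = fun s => (F s).1 := by
          funext s; exact asm_db h _ s
        show act (Db h (asm h fun s => (F s).1)) T = T'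
        rw [h4]
        funext i j k
        rw [← act_eq, ← hABC i j k, hF]
        rfl

end Pool.Agent.COSB.H8
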